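import Mathlib
import Pool.Agent.Helper17.DBex

set_option autoImplicit false
open Filter Topology MeasureTheory
open scoped ComplexConjugate

namespace Pool.Agent.Results.MP_060e4f_an.NotContinuous

/-- `g`, holomorphic in the open upper half-plane, is of bounded type there:
a quotient of two bounded holomorphic functions. -/
def BoundedType (g : ℂ → ℂ) : Prop :=
  DifferentiableOn ℂ g {z : ℂ | 0 < z.im} ∧
  ∃ a b : ℂ → ℂ, DifferentiableOn ℂ a {z : ℂ | 0 < z.im} ∧ DifferentiableOn ℂ b {z : ℂ | 0 < z.im} ∧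
    (∃ C : ℝ, ∀ z : ℂ, 0 < z.im → ‖a z‖ ≤ C) ∧ (∃ C : ℝ, ∀ z : ℂ, 0 < z.im → ‖b z‖ ≤ C) ∧
    (∃ z : ℂ, 0 < z.im ∧ b z ≠ 0) ∧ (∀ z : ℂ, 0 < z.im → g z * b z = a z)

/-- nonpositive mean type: `limsup_{y → +∞} y⁻¹ log |g (i y)| ≤ 0`, i.e. for every `ε > 0`,
`|g (i y)| ≤ exp (ε y)` for all large `y`. -/
def NonposMeanType (g : ℂ → ℂ) : Prop :=
  ∀ ε : ℝ, 0 < ε → ∀ᶠ y : ℝ in atTop, ‖g (Complex.I * (y : ℂ))‖ ≤ Real.exp (ε * y)

/-- `F*(z) = conj (F (conj z))`. -/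
noncomputable def star' (F : ℂ → ℂ) (z : ℂ) : ℂ := conj (F (conj z))

/-- Membership in the de Branges space `H(E)`. -/
def MemH (E F : ℂ → ℂ) : Prop :=
  Differentiable ℂ F ∧
  Integrable (fun t : ℝ => ‖F (t : ℂ) / E (t : ℂ)‖ ^ 2) volume ∧
  BoundedType (fun z => F z / E z) ∧ NonposMeanType (fun z => F z / E z) ∧
  BoundedType (fun z => star' F z / E z) ∧ NonposMeanType (fun z => star' F z / E z)

/-- The translation group acts continuously on `H(E)`. -/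
def TranslationsActContinuously (E : ℂ → ℂ) : Prop :=
  (∀ F : ℂ → ℂ, MemH E F → ∀ z : ℂ, MemH E (fun w => F (w + z))) ∧
  (∀ F : ℂ → ℂ, MemH E F → ∀ z₀ : ℂ,
    Tendsto (fun z : ℂ => ∫ t : ℝ, ‖(F ((t : ℂ) + z) - F ((t : ℂ) + z₀)) / E (t : ℂ)‖ ^ 2)
      (𝓝 z₀) (𝓝 0))

open Pool.Agent.Helper17.DB

noncomputable def i0 : Ix := ⟨0, 0⟩

noncomputable def W1 (i : Ix) : ℂ := open Classical in if i = i0 then 0 else W i

theorem W1_summable : Summable (fun i => ‖W1 i‖) := by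
  refine Summable.of_nonneg_of_le (fun i => norm_nonneg _) (fun i => ?_) W_summable
  unfold W1
  split_ifs
  · simp
  · exact le_rfl

theorem W1_im (i : Ix) : 0 ≤ (W1 i).im := by
  unfold W1
  split_ifs
  · simp
  · exact (W_im i).le

theorem Pr_split (z : ℂ) : Pr W z = (1 + -(z * W i0)) * Pr W1 z := by
  classical
  unfold Pr
  have hup : (Function.update (fun i => 1 + -(z * W i)) i0 1) = fun i => 1 + -(z * W1 i) := by
    funext i
    unfold W1
    by_cases h : i = i0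
    · subst h; simp
    · rw [Function.update_of_ne h]; simp [h]
  have hm : Multipliable (Function.update (fun i => 1 + -(z * W i)) i0 1) := by
    rw [hup]; exact (hasProd W1_summable z).multipliable
  rw [hm.tprod_eq_mul_tprod_ite' i0]
  congr 1
  apply tprod_congr
  intro i
  unfold W1
  by_cases h : i = i0
  · subst h; simp
  · simp [h]

/-- the structure function -/
noncomputable def E0 (z : ℂ) : ℂ := Pr W z ^ 3
/-- the element of `H(E)` -/
noncomputable def F0 (z : ℂ) : ℂ := Pr W z ^ 2 * Pr W1 z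

theorem E0_eq (z : ℂ) : E0 z = F0 z * (1 + -(z * W i0)) := by
  unfold E0 F0
  rw [pow_succ]
  nth_rewrite 2 [Pr_split z]
  ring

theorem E0_diff : Differentiable ℂ E0 := (Pr_diff W_summable).pow 3
theorem F0_diff : Differentiable ℂ F0 := ((Pr_diff W_summable).pow 2).mul (Pr_diff W1_summable)

theorem P_ne (z : ℂ) (hz : 0 ≤ z.im) : Pr W z ≠ 0 :=
  Pr_ne W_summable z (fun i => factor_ne hz (Or.inr (W_im i)))
theorem P1_ne (z : ℂ) (hz : 0 ≤ z.im) : Pr W1 z ≠ 0 := by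
  refine Pr_ne W1_summable z (fun i => factor_ne hz ?_)
  unfold W1
  split_ifs
  · exact Or.inl rfl
  · exact Or.inr (W_im i)

theorem E0_ne (z : ℂ) (hz : 0 ≤ z.im) : E0 z ≠ 0 := pow_ne_zero _ (P_ne z hz)

theorem P_lt (z : ℂ) (hz : 0 < z.im) : ‖Pr W (conj z)‖ < ‖Pr W z‖ := by
  rw [Pr_split, Pr_split, norm_mul, norm_mul]
  have h1 := factor_lt hz (W_im i0)
  have h2 := Pr_conj_le W1_summable W1_im z hz.le
  have h3 : 0 < ‖Pr W1 z‖ := norm_pos_iff.2 (P1_ne z hz.le)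
  calc _ ≤ ‖1 + -(conj z * W i0)‖ * ‖Pr W1 z‖ := by gcongr
    _ < _ := by gcongr

theorem E0_HB (z : ℂ) (hz : 0 < z.im) : ‖E0 (conj z)‖ < ‖E0 z‖ := by
  unfold E0
  rw [norm_pow, norm_pow]
  exact pow_lt_pow_left₀ (P_lt z hz) (norm_nonneg _) (by norm_num)

theorem E0_type : ∃ A B : ℝ, ∀ z : ℂ, ‖E0 z‖ ≤ A * Real.exp (B * ‖z‖) := by
  refine ⟨1, 3 * ∑' i, ‖W i‖, fun z => ?_⟩
  unfold E0
  rw [norm_pow, one_mul]
  calc ‖Pr W z‖ ^ 3 ≤ (Real.exp ((∑' i, ‖W i‖) * ‖z‖)) ^ 3 := by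
        gcongr; exact Pr_exp W_summable z
    _ = _ := by rw [← Real.exp_nat_mul]; congr 1; push_cast; ring

theorem E0_ratio (x : ℝ) : ∃ C : ℝ, ∀ t : ℝ, ‖E0 ((t : ℂ) + (x : ℂ)) / E0 (t : ℂ)‖ ≤ C := by
  obtain ⟨C, hC⟩ := shift_bound x
  refine ⟨C ^ 3, fun t => ?_⟩
  have h0 : 0 < ‖Pr W (t : ℂ)‖ := norm_pos_iff.2 (P_ne _ (by simp))
  unfold E0
  rw [norm_div, norm_pow, norm_pow, ← div_pow]
  have h1 := hC t
  push_cast at h1
  gcongr
  rwa [div_le_iff₀ h0]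

/-- lower bound for the extra factor -/
theorem fac_ge (z : ℂ) (hz : 0 ≤ z.im) : 1/4 ≤ ‖1 + -(z * W i0)‖ := by
  rw [factor_eq]
  have h1 : ‖zt i0‖ ≤ 2 := by
    have := Complex.norm_le_abs_re_add_abs_im (zt i0)
    have e1 : (zt i0).re = 1 := by simp [zt, i0]
    have e2 : (zt i0).im = -(1/2) := by simp [zt, i0, bb]
    rw [e1, e2] at this
    norm_num at this
    linarith
  have h2 : 1/2 ≤ ‖zt i0 - z‖ := by
    have := Complex.abs_im_le_norm (zt i0 - z)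
    have e2 : (zt i0 - z).im = -(1/2) - z.im := by simp [zt, i0, bb]
    rw [e2, abs_of_neg (by linarith)] at this
    linarith
  have h3 : 0 < ‖zt i0‖ := norm_pos_iff.2 (zt_ne i0)
  rw [le_div_iff₀ h3]
  linarith

theorem quot (z : ℂ) (hz : 0 ≤ z.im) : ‖F0 z / E0 z‖ = 1 / ‖1 + -(z * W i0)‖ := by
  have hF : F0 z ≠ 0 := mul_ne_zero (pow_ne_zero _ (P_ne z hz)) (P1_ne z hz)
  rw [E0_eq, norm_div, norm_mul]
  have := norm_pos_iff.2 hF
  rw [div_mul_eq_div_div, div_self this.ne']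

theorem quot_le (z : ℂ) (hz : 0 ≤ z.im) : ‖F0 z / E0 z‖ ≤ 4 := by
  rw [quot z hz]
  have := fac_ge z hz
  rw [div_le_iff₀ (by linarith)]
  linarith

theorem star_le (z : ℂ) (hz : 0 < z.im) : ‖star' F0 z / E0 z‖ ≤ 4 := by
  refine le_trans ?_ (quot_le z hz.le)
  rw [norm_div, norm_div]
  refine div_le_div_of_nonneg_right ?_ (norm_nonneg _)
  unfold star' F0
  rw [RCLike.norm_conj, norm_mul, norm_mul, norm_pow, norm_pow]
  have h1 := (P_lt z hz).le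
  have h2 := Pr_conj_le W1_summable W1_im z hz.le
  gcongr

theorem meanType_of_bdd (g : ℂ → ℂ) (C : ℝ) (h : ∀ z : ℂ, 0 < z.im → ‖g z‖ ≤ C) :
    NonposMeanType g := by
  intro ε hε
  have h1 : Tendsto (fun y : ℝ => Real.exp (ε * y)) atTop atTop :=
    Real.tendsto_exp_atTop.comp (tendsto_id.const_mul_atTop hε)
  filter_upwards [h1.eventually_ge_atTop C, eventually_gt_atTop 0] with y hy hy0
  exact (h _ (by simpa using hy0)).trans hy

theorem bddType_of_bdd (g : ℂ → ℂ) (hg : DifferentiableOn ℂ g {z : ℂ | 0 < z.im}) (C : ℝ)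
    (h : ∀ z : ℂ, 0 < z.im → ‖g z‖ ≤ C) : BoundedType g :=
  ⟨hg, g, fun _ => 1, hg, differentiableOn_const _, ⟨C, h⟩, ⟨1, fun z _ => by simp⟩,
    ⟨Complex.I, by simp, one_ne_zero⟩, fun z _ => mul_one _⟩

theorem star_diff {F : ℂ → ℂ} (hF : Differentiable ℂ F) : Differentiable ℂ (star' F) := by
  intro z
  have h := (hF (conj z)).hasDerivAt.conj_conj
  rw [Complex.conj_conj] at h
  exact h.differentiableAt

theorem F0_mem : MemH E0 F0 := by
  refine ⟨F0_diff, ?_, ?_, ?_, ?_, ?_⟩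
  · -- integrability
    have hcont : Continuous (fun t : ℝ => ‖F0 (t : ℂ) / E0 (t : ℂ)‖ ^ 2) := by
      have h1 := F0_diff.continuous
      have h2 := E0_diff.continuous
      refine ((h1.comp Complex.continuous_ofReal).div (h2.comp Complex.continuous_ofReal) ?_).norm.pow 2
      intro t
      exact E0_ne _ (by simp)
    have hint : Integrable (fun t : ℝ => 16 * (1 + (t + (-1)) ^ 2)⁻¹) volume :=
      (integrable_inv_one_add_sq.comp_add_right (-1)).const_mul 16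
    refine hint.mono' hcont.aestronglyMeasurable (Eventually.of_forall fun t => ?_)
    rw [Real.norm_of_nonneg (by positivity), quot _ (by simp), factor_eq, one_div_div, div_pow,
      norm_sq_zt']
    have h1 : ‖zt i0‖ ^ 2 = 5/4 := by
      have := norm_sq_zt' i0 0
      simp only [Complex.ofReal_zero, sub_zero] at this
      rw [this]
      simp [i0, bb]
      norm_num
    rw [h1]
    have e1 : (4:ℝ) ^ i0.1 = 1 := by simp [i0]
    have e2 : bb i0 = 1/2 := by simp [i0, bb]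
    rw [e1, e2, div_eq_mul_inv]
    have h2 : (((1:ℝ) - t)^2 + (1/2)^2)⁻¹ ≤ 4 * (1 + (t + (-1))^2)⁻¹ := by
      rw [← div_eq_mul_inv, inv_eq_one_div, div_le_div_iff₀ (by positivity) (by positivity)]
      nlinarith [sq_nonneg (1 - t)]
    have h3 : (0:ℝ) ≤ (1 + (t + (-1))^2)⁻¹ := by positivity
    linarith
  · refine bddType_of_bdd _ ?_ 4 (fun z hz => quot_le z hz.le)
    intro z hz
    exact ((F0_diff z).div (E0_diff z) (E0_ne z (le_of_lt hz))).differentiableWithinAt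
  · exact meanType_of_bdd _ 4 (fun z hz => quot_le z hz.le)
  · refine bddType_of_bdd _ ?_ 4 star_le
    intro z hz
    exact ((star_diff F0_diff z).div (E0_diff z) (E0_ne z (le_of_lt hz))).differentiableWithinAt
  · exact meanType_of_bdd _ 4 star_le

theorem F0_shift_ge (k : ℕ) (t : ℝ) (ht : |(4:ℝ)^k - t| ≤ 1/2) :
    (4:ℝ)^k / 16 ≤ ‖F0 ((t : ℂ) + Complex.I) / E0 (t : ℂ)‖ ^ 2 := by
  have h4 : (1:ℝ) ≤ 4^k := one_le_pow₀ (by norm_num)
  have h0 : 0 < ‖Pr W (t : ℂ)‖ := norm_pos_iff.2 (P_ne _ (by simp))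
  have hup := up_bound k t ht
  have hI : (0:ℝ) ≤ ((t : ℂ) + Complex.I).im := by simp
  have h1 := quot _ hI
  have hE : 0 < ‖E0 ((t : ℂ) + Complex.I)‖ := norm_pos_iff.2 (E0_ne _ hI)
  rw [norm_div, div_eq_iff hE.ne'] at h1
  have hfac : ‖1 + -(((t : ℂ) + Complex.I) * W i0)‖ ≤ 4 * (4:ℝ)^k := by
    have hW0 : ‖W i0‖ ≤ 1 := by
      have := norm_W_le i0
      simpa [i0] using this
    calc ‖1 + -(((t : ℂ) + Complex.I) * W i0)‖ ≤ ‖(1:ℂ)‖ + ‖-(((t : ℂ) + Complex.I) * W i0)‖ := norm_add_le _ _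
      _ ≤ 1 + (|t| + 1) * 1 := by
          rw [norm_one, norm_neg, norm_mul]
          gcongr
          refine (norm_add_le _ _).trans (le_of_eq ?_)
          rw [Complex.norm_real, Complex.norm_I, Real.norm_eq_abs]
      _ ≤ _ := by
          rw [abs_le] at ht
          have : |t| ≤ 4^k + 1/2 := by rw [abs_le]; constructor <;> linarith
          linarith
  have hfac0 : 0 < ‖1 + -(((t : ℂ) + Complex.I) * W i0)‖ := by
    have := fac_ge _ hI
    linarith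
  have h2 : (8:ℝ)^k ≤ ‖E0 ((t : ℂ) + Complex.I)‖ / ‖E0 (t : ℂ)‖ := by
    unfold E0
    rw [norm_pow, norm_pow, ← div_pow]
    have : (8:ℝ)^k = ((2:ℝ)^k)^3 := by rw [← pow_mul, mul_comm, pow_mul]; norm_num
    rw [this]
    gcongr
    rwa [le_div_iff₀ h0]
  have h3 : (2:ℝ)^k / 4 ≤ ‖F0 ((t : ℂ) + Complex.I) / E0 (t : ℂ)‖ := by
    rw [norm_div, h1, one_div_mul_eq_div, div_right_comm, le_div_iff₀ hfac0]
    have e : (8:ℝ)^k = (2:ℝ)^k / 4 * (4 * (4:ℝ)^k) := by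
      rw [show (8:ℝ) = 2 * 4 by norm_num, mul_pow]; ring
    calc (2:ℝ)^k / 4 * ‖1 + -(((t : ℂ) + Complex.I) * W i0)‖ ≤ (2:ℝ)^k / 4 * (4 * (4:ℝ)^k) := by gcongr
      _ = (8:ℝ)^k := e.symm
      _ ≤ _ := h2
  calc (4:ℝ)^k / 16 = ((2:ℝ)^k / 4)^2 := by
        rw [div_pow, ← pow_mul, mul_comm k 2, pow_mul]; norm_num
    _ ≤ _ := by gcongr

theorem F0_shift_not : ¬ MemH E0 (fun w => F0 (w + Complex.I)) := by
  rintro ⟨-, hint, -⟩
  set J := ∫ t : ℝ, ‖F0 ((t : ℂ) + Complex.I) / E0 (t : ℂ)‖ ^ 2 with hJ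
  have hk : ∀ k : ℕ, (4:ℝ)^k / 16 ≤ J := by
    intro k
    have h1 : volume.real (Set.Icc ((4:ℝ)^k - 1/2) ((4:ℝ)^k + 1/2)) • ((4:ℝ)^k / 16) ≤
        ∫ t in Set.Icc ((4:ℝ)^k - 1/2) ((4:ℝ)^k + 1/2), ‖F0 ((t : ℂ) + Complex.I) / E0 (t : ℂ)‖ ^ 2 := by
      apply setIntegral_ge_of_const_le measurableSet_Icc
      · rw [Real.volume_Icc]; exact ENNReal.ofReal_ne_top
      · intro t ht
        apply F0_shift_ge
        rw [abs_le]
        constructor <;> linarith [ht.1, ht.2]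
      · exact hint.integrableOn
    have h2 : volume.real (Set.Icc ((4:ℝ)^k - 1/2) ((4:ℝ)^k + 1/2)) = 1 := by
      rw [Real.volume_real_Icc]
      rw [max_eq_left (by linarith)]
      ring
    rw [h2, one_smul] at h1
    refine h1.trans ?_
    exact setIntegral_le_integral hint (Eventually.of_forall fun t => by positivity)
  obtain ⟨k, hk'⟩ := pow_unbounded_of_one_lt (16 * J) (by norm_num : (1:ℝ) < 4)
  have := hk k
  linarith

/-- **Disproof of Q1** (negated form). -/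
theorem result : ∃ E : ℂ → ℂ, Differentiable ℂ E ∧
    (∀ z : ℂ, 0 < z.im → ‖E (conj z)‖ < ‖E z‖) ∧
    (∃ A B : ℝ, ∀ z : ℂ, ‖E z‖ ≤ A * Real.exp (B * ‖z‖)) ∧
    (∀ t : ℝ, E (t : ℂ) ≠ 0) ∧
    (∀ x : ℝ, ∃ C : ℝ, ∀ t : ℝ, ‖E ((t : ℂ) + (x : ℂ)) / E (t : ℂ)‖ ≤ C) ∧
    (∃ F : ℂ → ℂ, MemH E F ∧ ¬ MemH E (fun w => F (w + Complex.I))) ∧
    ¬ TranslationsActContinuously E :=
  ⟨E0, E0_diff, E0_HB, E0_type, fun t => E0_ne _ (by simp), E0_ratio,
    ⟨F0, F0_mem, F0_shift_not⟩, fun h => F0_shift_not (h.1 F0 F0_mem Complex.I)⟩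

end Pool.Agent.Results.MP_060e4f_an.NotContinuous
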